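import Mathlib

set_option autoImplicit false

/-!
# Word length for the frozen notion of words
-/

namespace AutGeo

variable {G : Type} [Group G]

/-- value of a word over `X` and inverses, as in the frozen statement -/
def wval (X : Finset G) (w : List ({x // x ∈ X} × Bool)) : G :=
  (w.map (fun p : {x // x ∈ X} × Bool => if p.2 = true then p.1.1 else p.1.1⁻¹)).prod

/-- word length -/
noncomputable def wlen (X : Finset G) (g : G) : ℕ :=
  sInf {n | ∃ w : List ({x // x ∈ X} × Bool), w.length = n ∧ wval X w = g}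

/-- the letters and their inverses -/
noncomputable def symm [DecidableEq G] (X : Finset G) : Finset G := X ∪ X.image (·⁻¹)

lemma wval_append (X : Finset G) (w v : List ({x // x ∈ X} × Bool)) : wval X (w ++ v) = wval X w * wval X v := by
  simp [wval]

lemma wval_nil (X : Finset G) : wval X [] = 1 := by simp [wval]

/-- the inverse word -/
lemma wval_inv (X : Finset G) (w : List ({x // x ∈ X} × Bool)) :
    wval X (w.reverse.map (fun p => (p.1, !p.2))) = (wval X w)⁻¹ := by
  induction w with
  | nil => simp [wval]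
  | cons p w ih =>
    rw [List.reverse_cons, List.map_append, wval_append, ih]
    rcases p with ⟨x, b⟩
    have : wval X ((x, b) :: w) = wval X [(x, b)] * wval X w := by
      rw [← wval_append]; rfl
    rw [this, mul_inv_rev]
    congr 1
    cases b <;> simp [wval]

theorem wval_surj (X : Finset G) (hX : Subgroup.closure (X : Set G) = ⊤) (g : G) :
    ∃ w : List ({x // x ∈ X} × Bool), wval X w = g := by
  have hg : g ∈ Subgroup.closure (X : Set G) := by rw [hX]; trivial
  induction hg using Subgroup.closure_induction with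
  | mem x hx => exact ⟨[(⟨x, hx⟩, true)], by simp [wval]⟩
  | one => exact ⟨[], wval_nil X⟩
  | mul x y _ _ hx hy =>
    obtain ⟨w, hw⟩ := hx
    obtain ⟨v, hv⟩ := hy
    exact ⟨w ++ v, by rw [wval_append, hw, hv]⟩
  | inv x _ hx =>
    obtain ⟨w, hw⟩ := hx
    exact ⟨_, by rw [wval_inv, hw]⟩

theorem wlen_le (X : Finset G) (w : List ({x // x ∈ X} × Bool)) : wlen X (wval X w) ≤ w.length :=
  Nat.sInf_le ⟨w, rfl, rfl⟩

theorem exists_word (X : Finset G) (hX : Subgroup.closure (X : Set G) = ⊤) (g : G) :
    ∃ w : List ({x // x ∈ X} × Bool), w.length = wlen X g ∧ wval X w = g := by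
  have hne : {n | ∃ w : List ({x // x ∈ X} × Bool), w.length = n ∧ wval X w = g}.Nonempty := by
    obtain ⟨w, hw⟩ := wval_surj X hX g
    exact ⟨_, w, rfl, hw⟩
  exact Nat.sInf_mem hne

theorem wlen_one (X : Finset G) : wlen X (1 : G) = 0 := by
  have := wlen_le X ([] : List ({x // x ∈ X} × Bool))
  rw [wval_nil] at this
  simpa using this

theorem wlen_mul (X : Finset G) (hX : Subgroup.closure (X : Set G) = ⊤) (g h : G) :
    wlen X (g * h) ≤ wlen X g + wlen X h := by
  obtain ⟨w, hw, hw'⟩ := exists_word X hX g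
  obtain ⟨v, hv, hv'⟩ := exists_word X hX h
  have := wlen_le X (w ++ v)
  rw [wval_append, hw', hv', List.length_append, hw, hv] at this
  exact this

theorem wlen_inv (X : Finset G) (hX : Subgroup.closure (X : Set G) = ⊤) (g : G) :
    wlen X g⁻¹ = wlen X g := by
  have key : ∀ g : G, wlen X g⁻¹ ≤ wlen X g := by
    intro g
    obtain ⟨w, hw, hw'⟩ := exists_word X hX g
    have := wlen_le X (w.reverse.map (fun p => (p.1, !p.2)))
    rw [wval_inv, hw', List.length_map, List.length_reverse, hw] at this
    exact this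
  refine le_antisymm (key g) ?_
  have := key g⁻¹
  rwa [inv_inv] at this

theorem wlen_symm [DecidableEq G] (X : Finset G) (s : G) (hs : s ∈ symm X) : wlen X s ≤ 1 := by
  unfold symm at hs
  rw [Finset.mem_union, Finset.mem_image] at hs
  rcases hs with hs | ⟨x, hx, rfl⟩
  · have := wlen_le X [((⟨s, hs⟩ : {x // x ∈ X}), true)]
    simpa [wval] using this
  · have := wlen_le X [((⟨x, hx⟩ : {x // x ∈ X}), false)]
    simpa [wval] using this

/-- (*) of A4: geodesic paths with states, and pumping. -/
structure Pump (len : G → ℕ) (S : Finset G) (Nst : ℕ) : Prop where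
  path : ∀ g : G, ∃ (h : ℕ → G) (st : ℕ → Fin Nst), h 0 = 1 ∧ h (len g) = g ∧
    (∀ i, i < len g → (h i)⁻¹ * h (i + 1) ∈ S) ∧
    ∀ i, i ≤ len g → ∀ j, j ≤ len g → st i = st j → len (h i * (h j)⁻¹ * g) = i + (len g - j)

end AutGeo
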