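import Pool.Agent.AutGeo.Defs

set_option autoImplicit false

namespace AutGeo

open HNNExtension HNNExtension.NormalWord

private lemma toSub (e : ℤˣ) : HNNExtension.toSubgroup (line (2, 2)) (line (3, 0)) e = line (T' e) := by
  rcases Int.units_eq_one_or e with rfl | rfl <;> rfl

/-- helper: the inverse of a `Red` element is the product of a reduced word with head `1` and first sign `-e`.
Induction on `Red`: `(h * of k * te e')⁻¹ = te (-e') * of k⁻¹ * h⁻¹`, new list `(-e', k⁻¹) :: W.toList` (`W.head = 1`);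
chain condition: `k⁻¹ ∈ toSubgroup (-e')` (which is `line (T e')`) implies `-e' = -e`. -/
theorem red_word {h : GG} {e : ℤˣ} (hr : Red h e) :
    ∃ W : ReducedWord KK (line (2, 2)) (line (3, 0)), W.prod phi = h⁻¹ ∧ W.head = 1 ∧
      W.toList.head?.map Prod.fst = some (-e) := by
  induction hr with
  | base k e =>
    refine ⟨⟨1, [(-e, k⁻¹)], List.isChain_singleton _⟩, ?_, rfl, rfl⟩
    rw [mul_inv_rev, ← te_neg]
    simp only [ReducedWord.prod, List.map_cons, List.map_nil, List.prod_cons, List.prod_nil, map_one, one_mul, mul_one,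
      te, map_inv]
  | @step h e k e' hr hk ih =>
    obtain ⟨W, hW, hW1, hW2⟩ := ih
    refine ⟨⟨1, (-e', k⁻¹) :: W.toList, ?_⟩, ?_, rfl, rfl⟩
    · refine List.isChain_cons.2 ⟨?_, W.chain⟩
      rintro ⟨u, g⟩ hu hmem
      have hu1 : u = -e := by
        have := congrArg (Option.map Prod.fst) hu
        rw [hW2] at this
        simpa using this.symm
      subst hu1
      simp only at hmem ⊢
      by_contra hne
      rw [toSub, T'_neg, inv_mem_iff] at hmem
      have he : e' = -e := by
        rcases Int.units_eq_one_or e with rfl | rfl <;> rcases Int.units_eq_one_or e' with rfl | rfl <;> simp_all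
      obtain ⟨j, hj⟩ := hmem
      apply hk
      refine ⟨he, j, ?_⟩
      rw [hj, he, T_neg]
    · simp only [ReducedWord.prod, List.map_cons, List.prod_cons, map_one, one_mul, mul_inv_rev, ← te_neg]
      have h2 : (List.map (fun x : ℤˣ × KK => (HNNExtension.t : GG) ^ (x.1 : ℤ) * HNNExtension.of x.2) W.toList).prod = h⁻¹ := by
        rw [← hW, ReducedWord.prod, hW1, map_one, one_mul]
      rw [h2, map_inv]
      simp only [te, mul_assoc]

/-- (BR) uniqueness of the last crossing. Proof: `h'⁻¹ = of k⁻¹ * h⁻¹`; the reduced words `⟨k⁻¹, W.toList⟩` and `W'` have the same product; `ReducedWord.map_fst_eq_and_of_prod_eq`: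
equal signs, and `(k⁻¹)⁻¹ * 1 ∈ toSubgroup (-(-e)) = line (T' e)`. -/
theorem red_unique {h h' : GG} {e e' : ℤˣ} (k : KK) (hr : Red h e) (hr' : Red h' e') (heq : h' = h * of k) :
    e' = e ∧ ∃ j : ℤ, k = vec (j • T' e) := by
  obtain ⟨W, hW, hW1, hW2⟩ := red_word hr
  obtain ⟨W', hW', hW1', hW2'⟩ := red_word hr'
  let V : ReducedWord KK (line (2, 2)) (line (3, 0)) := ⟨k⁻¹, W.toList, W.chain⟩
  have hV : V.prod phi = W'.prod phi := by
    rw [hW', heq, mul_inv_rev]
    have h2 : (List.map (fun x : ℤˣ × KK => (HNNExtension.t : GG) ^ (x.1 : ℤ) * HNNExtension.of x.2) W.toList).prod = h⁻¹ := by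
      rw [← hW, ReducedWord.prod, hW1, map_one, one_mul]
    simp only [V, ReducedWord.prod, h2, map_inv]
  have key := ReducedWord.map_fst_eq_and_of_prod_eq phi hV
  have h1 : W'.toList.head?.map Prod.fst = some (-e) := by
    rw [← List.head?_map, ← key.1, List.head?_map]
    exact hW2
  rw [hW2'] at h1
  have he : e' = e := by
    have := Option.some.inj h1
    exact neg_injective this
  refine ⟨he, ?_⟩
  have h3 := key.2 (-e) (by
    show (-e) ∈ V.toList.head?.map Prod.fst
    exact hW2)
  rw [neg_neg, toSub, hW1', mul_one, inv_inv] at h3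
  exact h3

/-- a `Red` element is not in the base group (Britton) -/
theorem red_ne_of {h : GG} {e : ℤˣ} (hr : Red h e) (k : KK) : h ≠ of k := by
  intro heq
  obtain ⟨W, hW, hW1, hW2⟩ := red_word hr
  have := ReducedWord.toList_eq_nil_of_mem_of_range phi W (by
    rw [hW, heq]
    exact ⟨k⁻¹, by simp⟩)
  rw [this] at hW2
  simp at hW2

/-- right multiplication of an element with a reduced sequence by a stable letter -/
private lemma exists_red_te (g : GG) (s : ℤˣ)
    (hg : (∃ k : KK, g = of k) ∨ ∃ (h : GG) (e : ℤˣ) (k : KK), Red h e ∧ g = h * of k) :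
    (∃ k : KK, g * te s = of k) ∨ ∃ (h : GG) (e : ℤˣ) (k : KK), Red h e ∧ g * te s = h * of k := by
  rcases hg with ⟨k, rfl⟩ | ⟨h, e, k, hr, rfl⟩
  · exact Or.inr ⟨of k * te s, s, 1, Red.base k s, by simp⟩
  · by_cases hk : s = -e ∧ ∃ j : ℤ, k = vec (j • T' e)
    · obtain ⟨rfl, j, rfl⟩ := hk
      have h1 : of (vec (j • T' e)) * te (-e) = te (-e) * of (vec (j • T e)) := by
        have := vecT_te (-e) j
        rwa [T_neg, T'_neg] at this
      cases hr with
      | base k0 e =>
        left
        refine ⟨k0 * vec (j • T e), ?_⟩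
        rw [mul_assoc (of k0 * te e), h1, te_neg, map_mul]
        group
      | @step h0 e0 k0 e' hr0 hk0 =>
        right
        refine ⟨h0, e0, k0 * vec (j • T e), hr0, ?_⟩
        rw [mul_assoc (h0 * of k0 * te e), h1, te_neg, map_mul]
        group
    · exact Or.inr ⟨h * of k * te s, s, 1, Red.step k s hr hk, by simp⟩

private lemma exists_red_of (g : GG) (k' : KK)
    (hg : (∃ k : KK, g = of k) ∨ ∃ (h : GG) (e : ℤˣ) (k : KK), Red h e ∧ g = h * of k) :
    (∃ k : KK, g * of k' = of k) ∨ ∃ (h : GG) (e : ℤˣ) (k : KK), Red h e ∧ g * of k' = h * of k := by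
  rcases hg with ⟨k, rfl⟩ | ⟨h, e, k, hr, rfl⟩
  · exact Or.inl ⟨k * k', by simp⟩
  · exact Or.inr ⟨h, e, k * k', hr, by simp [mul_assoc]⟩

/-- every element is in the base group or has a reduced sequence -/
theorem exists_red (g : GG) : (∃ k : KK, g = of k) ∨ ∃ (h : GG) (e : ℤˣ) (k : KK), Red h e ∧ g = h * of k := by
  -- right multiplication by `g` and by `g⁻¹` preserves the property
  have key : ∀ g : GG, (∀ x : GG, ((∃ k : KK, x = of k) ∨ ∃ (h : GG) (e : ℤˣ) (k : KK), Red h e ∧ x = h * of k) →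
      ((∃ k : KK, x * g = of k) ∨ ∃ (h : GG) (e : ℤˣ) (k : KK), Red h e ∧ x * g = h * of k)) ∧
      (∀ x : GG, ((∃ k : KK, x = of k) ∨ ∃ (h : GG) (e : ℤˣ) (k : KK), Red h e ∧ x = h * of k) →
      ((∃ k : KK, x * g⁻¹ = of k) ∨ ∃ (h : GG) (e : ℤˣ) (k : KK), Red h e ∧ x * g⁻¹ = h * of k)) := by
    intro g
    induction g using HNNExtension.induction_on with
    | of k =>
      refine ⟨fun x hx => exists_red_of x k hx, fun x hx => ?_⟩
      rw [← map_inv]
      exact exists_red_of x k⁻¹ hx
    | t =>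
      have h1 : (HNNExtension.t : GG) = te 1 := by simp [te]
      rw [h1]
      refine ⟨fun x hx => exists_red_te x 1 hx, fun x hx => ?_⟩
      rw [← te_neg]
      exact exists_red_te x (-1) hx
    | mul x y hx hy =>
      refine ⟨fun z hz => ?_, fun z hz => ?_⟩
      · rw [← mul_assoc]
        exact hy.1 _ (hx.1 z hz)
      · rw [mul_inv_rev, ← mul_assoc]
        exact hx.2 _ (hy.2 z hz)
    | inv x hx =>
      exact ⟨fun z hz => hx.2 z hz, fun z hz => by rw [inv_inv]; exact hx.1 z hz⟩
  have := (key g).1 1 (Or.inl ⟨1, by simp⟩)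
  simpa using this

end AutGeo
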