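import Pool.Agent.AutGeo.Defs

set_option autoImplicit false

namespace AutGeo

/-- value of a letter -/
noncomputable def lv : KK ⊕ ℤˣ → GG := Sum.elim of te

/-- 6 times the octagonal norm: `P6 (3,0) = P6 (2,2) = 6`, rotation invariant -/
def P6 (v : ℤ × ℤ) : ℤ := max (2 * |v.1| + |v.2|) (|v.1| + 2 * |v.2|)

/-- cost of a letter -/
def cost : KK ⊕ ℤˣ → ℤ := Sum.elim (fun k => P6 k.v) (fun _ => 0)

lemma P6_add (v w : ℤ × ℤ) : P6 (v + w) ≤ P6 v + P6 w := by
  unfold P6
  have h1 := abs_add_le v.1 w.1
  have h2 := abs_add_le v.2 w.2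
  simp only [Prod.fst_add, Prod.snd_add]
  omega

lemma P6_rot (a : ZMod 4) (v : ℤ × ℤ) : P6 (rot a v) = P6 v := by
  rcases zmod4_cases a with rfl | rfl | rfl | rfl
  · rw [rot_zero]
  · rw [rot_one]; unfold P6; simp only [abs_neg]; omega
  · rw [rot_two]; unfold P6; simp only [abs_neg]
  · rw [rot_three]; unfold P6; simp only [abs_neg]; omega

lemma P6_mul (x y : KK) : P6 (x * y).v ≤ P6 x.v + P6 y.v := by
  have h := P6_add x.v (rot x.a y.v)
  rw [P6_rot] at h
  simpa using h

lemma P6_zero : P6 0 = 0 := by simp [P6]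

lemma P6_smul_T (j : ℤ) (e : ℤˣ) : P6 (j • T e) = 6 * |j| := by
  rcases Int.units_eq_one_or e with rfl | rfl
  · simp only [T_one, P6, Prod.smul_mk, smul_eq_mul, mul_zero, abs_zero, abs_mul]
    have : |(3 : ℤ)| = 3 := by norm_num
    rw [this]
    have := abs_nonneg j
    omega
  · simp only [T_neg_one, P6, Prod.smul_mk, smul_eq_mul, abs_mul]
    have : |(2 : ℤ)| = 2 := by norm_num
    rw [this]
    have := abs_nonneg j
    omega

lemma P6_smul_T' (j : ℤ) (e : ℤˣ) : P6 (j • T' e) = 6 * |j| := by
  rw [← T_neg, P6_smul_T]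

/-- value of a pair list -/
noncomputable def pval (k0 : KK) (l : List (ℤˣ × KK)) : GG :=
  of k0 * (l.map (fun x => te x.1 * of x.2)).prod

/-- cost of a pair list -/
def pcost (k0 : KK) (l : List (ℤˣ × KK)) : ℤ :=
  P6 k0.v + (l.map (fun x => P6 x.2.v)).sum

lemma pval_cons (k0 : KK) (e : ℤˣ) (g : KK) (l : List (ℤˣ × KK)) :
    pval k0 ((e, g) :: l) = of k0 * te e * pval g l := by
  simp [pval, mul_assoc]

lemma pcost_cons (k0 : KK) (e : ℤˣ) (g : KK) (l : List (ℤˣ × KK)) :
    pcost k0 ((e, g) :: l) = P6 k0.v + pcost g l := by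
  simp [pcost]

lemma pval_mul (k k0 : KK) (l : List (ℤˣ × KK)) : pval (k * k0) l = of k * pval k0 l := by
  simp [pval, mul_assoc]

lemma pcost_mul (k k0 : KK) (l : List (ℤˣ × KK)) : pcost (k * k0) l ≤ P6 k.v + pcost k0 l := by
  have := P6_mul k k0
  simp only [pcost]
  linarith

lemma mem_toSubgroup {e : ℤˣ} {g : KK}
    (h : g ∈ HNNExtension.toSubgroup (line (2, 2)) (line (3, 0)) e) :
    ∃ j : ℤ, g = vec (j • T' e) := by
  rcases Int.units_eq_one_or e with rfl | rfl
  · exact h
  · exact h

lemma te_one : te 1 = HNNExtension.t := by simp [te]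

/-- elimination of a pinch -/
lemma exists_shorter (l : List (ℤˣ × KK)) : ∀ (k0 : KK),
    ¬ l.IsChain (fun a b => a.2 ∈ HNNExtension.toSubgroup (line (2, 2)) (line (3, 0)) a.1 →
      a.1 = b.1) →
    ∃ (k1 : KK) (l1 : List (ℤˣ × KK)), l1.length < l.length ∧ pval k1 l1 = pval k0 l ∧
      pcost k1 l1 ≤ pcost k0 l := by
  induction l with
  | nil => intro k0 h; exact absurd List.isChain_nil h
  | cons x l ih =>
    intro k0 h
    obtain ⟨e, g⟩ := x
    cases l with
    | nil => exact absurd (List.isChain_singleton _) h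
    | cons y l2 =>
      obtain ⟨e', g'⟩ := y
      by_cases hp : g ∈ HNNExtension.toSubgroup (line (2, 2)) (line (3, 0)) e → e = e'
      · have h2 : ¬ ((e', g') :: l2).IsChain (fun a b => a.2 ∈ HNNExtension.toSubgroup (line (2, 2))
            (line (3, 0)) a.1 → a.1 = b.1) := by
          intro h3
          exact h (List.isChain_cons_cons.2 ⟨hp, h3⟩)
        obtain ⟨k1, l1, hlen, hval, hcost⟩ := ih g h2
        refine ⟨k0, (e, k1) :: l1, ?_, ?_, ?_⟩
        · simp only [List.length_cons] at hlen ⊢
          omega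
        · rw [pval_cons, pval_cons, hval]
        · rw [pcost_cons, pcost_cons]
          linarith
      · push Not at hp
        obtain ⟨hg, hne⟩ := hp
        obtain ⟨j, rfl⟩ := mem_toSubgroup hg
        have he' : e' = -e := by
          rcases Int.units_eq_one_or e with rfl | rfl <;>
            rcases Int.units_eq_one_or e' with rfl | rfl
          · exact absurd rfl hne
          · rfl
          · simp
          · exact absurd rfl hne
        subst he'
        refine ⟨k0 * (vec (j • T e) * g'), l2, ?_, ?_, ?_⟩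
        · simp only [List.length_cons]
          omega
        · rw [pval_mul, pval_cons]
          have h1 : pval (vec (j • T' e)) ((-e, g') :: l2) =
              of (vec (j • T' e)) * te (-e) * pval g' l2 := pval_cons _ _ _ _
          have h2 : pval (vec (j • T' e)) l2 = pval (vec (j • T' e)) l2 := rfl
          rw [h1, te_neg]
          have h3 := vecT_te e j
          have h4 : pval (vec (j • T e) * g') l2 = of (vec (j • T e)) * pval g' l2 := pval_mul _ _ _
          have h5 : te e * of (vec (j • T' e)) * (te e)⁻¹ = of (vec (j • T e)) := by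
            rw [← h3]; group
          calc of k0 * pval (vec (j • T e) * g') l2 = of k0 * (of (vec (j • T e)) * pval g' l2) := by
                rw [h4]
            _ = of k0 * ((te e * of (vec (j • T' e)) * (te e)⁻¹) * pval g' l2) := by rw [h5]
            _ = _ := by simp only [mul_assoc]
        · have h1 := pcost_mul k0 (vec (j • T e) * g') l2
          have h2 := pcost_mul (vec (j • T e)) g' l2
          rw [pcost_cons, pcost_cons]
          simp only [vec_v, P6_smul_T, P6_smul_T'] at h1 h2 ⊢
          linarith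

lemma P6_le_pcost (n : ℕ) : ∀ (l : List (ℤˣ × KK)) (k0 k : KK), l.length = n → pval k0 l = of k →
    P6 k.v ≤ pcost k0 l := by
  induction n using Nat.strong_induction_on with
  | _ n ih =>
    intro l k0 k hl h
    by_cases hc : l.IsChain (fun a b => a.2 ∈ HNNExtension.toSubgroup (line (2, 2)) (line (3, 0)) a.1 →
      a.1 = b.1)
    · have hnil : l = [] := by
        have := HNNExtension.ReducedWord.toList_eq_nil_of_mem_of_range (φ := phi)
          (⟨k0, l, hc⟩ : HNNExtension.NormalWord.ReducedWord KK (line (2, 2)) (line (3, 0)))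
          ⟨k, h.symm⟩
        exact this
      subst hnil
      have h1 : of k0 = of k := by simpa [pval] using h
      have h2 : k0 = k := HNNExtension.of_injective phi h1
      subst h2
      simp [pcost]
    · obtain ⟨k1, l1, hlen, hval, hcost⟩ := exists_shorter l k0 hc
      have := ih l1.length (by omega) l1 k1 k rfl (hval.trans h)
      linarith

lemma exists_pairs (L : List (KK ⊕ ℤˣ)) : ∃ (k0 : KK) (l : List (ℤˣ × KK)),
    pval k0 l = (L.map lv).prod ∧ pcost k0 l ≤ (L.map cost).sum := by
  induction L with
  | nil => exact ⟨1, [], by simp [pval], by simp [pcost, P6_zero]⟩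
  | cons x L ih =>
    obtain ⟨k0, l, hv, hc⟩ := ih
    cases x with
    | inl k =>
      refine ⟨k * k0, l, ?_, ?_⟩
      · rw [pval_mul, hv]; simp [lv]
      · have := pcost_mul k k0 l
        simp only [List.map_cons, List.sum_cons, cost, Sum.elim_inl] at hc ⊢
        linarith
    | inr e =>
      refine ⟨1, (e, k0) :: l, ?_, ?_⟩
      · rw [pval_cons, hv]; simp [lv]
      · rw [pcost_cons]
        simp only [List.map_cons, List.sum_cons, cost, Sum.elim_inr, KK.one_v, P6_zero] at hc ⊢
        linarith

/-- A1. Proof: strong induction on the number of `t`-letters of `L`. `P6 (v + w) ≤ P6 v + P6 w`, `P6 (rot a v) = P6 v`, so a block of `KK`-letters can be replaced by its product.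
If there is a `t`-letter: after merging the blocks, if no pinch `t^e k t^(-e)`, `k ∈ line (T' e)`, occurs, the list is a reduced word with a `t`-letter whose product is in the range of `of`: contradiction to
`HNNExtension.ReducedWord.toList_eq_nil_of_mem_of_range`. So there is a pinch, `te e * of (vec (j • T' e)) * te (-e) = of (vec (j • T e))`, `P6 (j • T e) = 6|j| = P6 (j • T' e)`. -/
theorem P6_le_cost (L : List (KK ⊕ ℤˣ)) (k : KK) (h : (L.map lv).prod = of k) :
    P6 k.v ≤ (L.map cost).sum := by
  obtain ⟨k0, l, hv, hc⟩ := exists_pairs L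
  exact (P6_le_pcost l.length l k0 k rfl (hv.trans h)).trans hc

/-- every element is the product of letters -/
theorem exists_letters (g : GG) : ∃ L : List (KK ⊕ ℤˣ), (L.map lv).prod = g := by
  induction g using HNNExtension.induction_on with
  | of k => exact ⟨[Sum.inl k], by simp [lv]⟩
  | t => exact ⟨[Sum.inr 1], by simp [lv, te_one]⟩
  | mul x y hx hy =>
    obtain ⟨L1, rfl⟩ := hx
    obtain ⟨L2, rfl⟩ := hy
    exact ⟨L1 ++ L2, by simp⟩
  | inv x hx =>
    obtain ⟨L, rfl⟩ := hx
    refine ⟨(L.map (Sum.map (fun k => k⁻¹) (fun e => -e))).reverse, ?_⟩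
    rw [List.prod_inv_reverse, List.map_reverse, List.map_map, List.map_map]
    congr 2
    apply List.map_congr_left
    intro x _
    cases x with
    | inl k => simp [lv]
    | inr e => simp [lv, te_neg]

end AutGeo
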