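import Pool.Agent.AutGeo.G.Cut
import Pool.Agent.AutGeo.G.PLen

set_option autoImplicit false

namespace AutGeo

private lemma enter_letter (F : Set GG) (hF : ∀ (x : GG) (k : KK), x ∈ F → x * of k ∈ F)
    (l : List (KK ⊕ ℤˣ)) :
    ∀ x : GG, x ∉ F → x * (l.map lv).prod ∈ F →
      ∃ (n : ℕ) (s : ℤˣ), x * ((l.take n).map lv).prod ∉ F ∧
        x * ((l.take n).map lv).prod * te s ∈ F := by
  induction l with
  | nil =>
    intro x h1 h2
    rw [List.map_nil, List.prod_nil, mul_one] at h2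
    exact absurd h2 h1
  | cons c l ih =>
    intro x h1 h2
    by_cases h : x * lv c ∈ F
    · rcases c with k | s
      · exfalso
        apply h1
        have h3 := hF _ k⁻¹ h
        have h4 : x * lv (Sum.inl k) * of k⁻¹ = x := by
          change x * of k * of k⁻¹ = x
          rw [map_inv, mul_inv_cancel_right]
        rwa [h4] at h3
      · refine ⟨0, s, ?_, ?_⟩
        · rw [List.take_zero, List.map_nil, List.prod_nil, mul_one]; exact h1
        · rw [List.take_zero, List.map_nil, List.prod_nil, mul_one]; exact h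
    · rw [List.map_cons, List.prod_cons, ← mul_assoc] at h2
      obtain ⟨n, s, h3, h4⟩ := ih (x * lv c) h h2
      refine ⟨n + 1, s, ?_, ?_⟩
      · rw [List.take_succ_cons, List.map_cons, List.prod_cons, ← mul_assoc]; exact h3
      · rw [List.take_succ_cons, List.map_cons, List.prod_cons, ← mul_assoc]; exact h4

/-- A3: crossing times. Proof: for `s ∈ S` fix a list `L s` of letters with product `s` (`exists_letters`), `E` = all products of prefixes of the `L s` (finite).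
For a path and a reduced sequence: `t i` := the first time with `h (t i) ∉ F i`, `h (t i + 1) ∈ F i` (`h 0 = 1 ∉ F i`, `h L ∈ F i`; `t i := Nat.find` of `h (t+1) ∈ F i`).
`F (i+1) ⊆ F i` gives `t i ≤ t (i+1)`. Along the prefixes of `L s`, `s = (h t)⁻¹ h (t+1)`, there is a first letter entering `F i`; it is a `t`-letter (property 1: letters of `KK` do not enter, since `x * of k ∈ F → x ∈ F`),
and by property (2) the prefix product `γ` satisfies `h t * γ = G_i * of (vec (j • T))`. -/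
theorem crossing (S : Finset GG) :
    ∃ E : Finset GG, ∀ (h : ℕ → GG) (L : ℕ), h 0 = 1 → (∀ i, i < L → (h i)⁻¹ * h (i + 1) ∈ S) →
      ∀ (v : ℕ → ℤ × ℤ) (a : ℕ → ZMod 4) (e : ℕ → ℤˣ) (m : ℕ), RedSeq v a e m →
        h L = gp v a e m * of ⟨v m, a m⟩ →
        ∃ (t : ℕ → ℕ) (Y : ℕ → ℤ) (γ : ℕ → GG),
          (∀ i, 1 ≤ i → i ≤ m → γ i ∈ E ∧ t i ≤ L ∧
            h (t i) = gp v a e (i - 1) * of ⟨v (i - 1), a (i - 1)⟩ * of (vec (Y i • T (e (i - 1)))) * (γ i)⁻¹) ∧
          (∀ i, 1 ≤ i → i < m → t i ≤ t (i + 1)) := by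
  classical
  choose Ls hLs using exists_letters
  refine ⟨S.biUnion (fun s => ((Ls s).inits.map (fun l => (l.map lv).prod)).toFinset), ?_⟩
  intro h L h0 hS v a e m hred hL
  obtain ⟨F, F1, F2, F3, F4, F5⟩ := cut_sets v a e m hred
  have hex : ∀ i, 1 ≤ i → i ≤ m → ∃ t, t < L ∧ h (t + 1) ∈ F i := by
    intro i hi1 hi2
    have hLF : h L ∈ F i := by rw [hL]; exact F5 i hi1 hi2
    rcases Nat.eq_zero_or_pos L with hz | hp
    · exfalso
      rw [hz, h0] at hLF
      exact F3 i hi1 hi2 hLF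
    · exact ⟨L - 1, by omega, by rw [Nat.sub_add_cancel hp]; exact hLF⟩
  let t : ℕ → ℕ := fun i => if hh : ∃ t, h (t + 1) ∈ F i then Nat.find hh else 0
  have ht1 : ∀ i, 1 ≤ i → i ≤ m → t i < L ∧ h (t i + 1) ∈ F i ∧ h (t i) ∉ F i := by
    intro i hi1 hi2
    obtain ⟨t0, ht0, ht0'⟩ := hex i hi1 hi2
    have hh : ∃ t, h (t + 1) ∈ F i := ⟨t0, ht0'⟩
    have e1 : t i = Nat.find hh := dif_pos hh
    rw [e1]
    refine ⟨lt_of_le_of_lt (Nat.find_min' hh ht0') ht0, Nat.find_spec hh, ?_⟩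
    rcases Nat.eq_zero_or_pos (Nat.find hh) with hz | hp
    · rw [hz, h0]; exact F3 i hi1 hi2
    · have hm := Nat.find_min hh (m := Nat.find hh - 1) (by omega)
      rwa [Nat.sub_add_cancel hp] at hm
  have key : ∀ i, ∃ (y : ℤ) (g : GG), 1 ≤ i → i ≤ m →
      (g ∈ S.biUnion (fun s => ((Ls s).inits.map (fun l => (l.map lv).prod)).toFinset) ∧
        t i ≤ L ∧ h (t i) = gp v a e (i - 1) * of ⟨v (i - 1), a (i - 1)⟩ *
          of (vec (y • T (e (i - 1)))) * g⁻¹) := by
    intro i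
    by_cases hi : 1 ≤ i ∧ i ≤ m
    · obtain ⟨hi1, hi2⟩ := hi
      obtain ⟨h1, h2, h3⟩ := ht1 i hi1 hi2
      have hs := hS (t i) h1
      set s := (h (t i))⁻¹ * h (t i + 1) with hsdef
      have h4 : h (t i) * ((Ls s).map lv).prod ∈ F i := by
        rw [hLs s, hsdef, mul_inv_cancel_left]; exact h2
      obtain ⟨n, σ, h5, h6⟩ := enter_letter (F i) (F1 i hi1 hi2) (Ls s) _ h3 h4
      obtain ⟨-, j, hj⟩ := F2 i hi1 hi2 _ σ h5 h6
      refine ⟨j, (((Ls s).take n).map lv).prod, fun _ _ => ⟨?_, h1.le, ?_⟩⟩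
      · rw [Finset.mem_biUnion]
        refine ⟨s, hs, ?_⟩
        rw [List.mem_toFinset, List.mem_map]
        exact ⟨(Ls s).take n, by rw [List.mem_inits]; exact List.take_prefix _ _, rfl⟩
      · rw [← hj, mul_inv_cancel_right]
    · exact ⟨0, 1, fun h1 h2 => absurd ⟨h1, h2⟩ hi⟩
  choose Y γ hYγ using key
  refine ⟨t, Y, γ, hYγ, ?_⟩
  intro i hi1 hi2
  obtain ⟨-, h2, -⟩ := ht1 (i + 1) (by omega) hi2
  have h5 : h (t (i + 1) + 1) ∈ F i := F4 i hi1 hi2 h2
  have hh : ∃ t, h (t + 1) ∈ F i := ⟨_, h5⟩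
  have e1 : t i = Nat.find hh := dif_pos hh
  rw [e1]
  exact Nat.find_min' hh h5

end AutGeo
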