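import Pool.Agent.AutGeo.G.Far2
import Pool.Agent.AutGeo.ADefs

set_option autoImplicit false

namespace AutGeo

/-- reducedness in the form that is used in `Red.step` -/
private lemma cut_hk (v : ℕ → ℤ × ℤ) (a : ℕ → ZMod 4) (e : ℕ → ℤˣ) (m : ℕ) (hred : RedSeq v a e m)
    (l : ℕ) (hl : l + 1 < m) : ¬ (e (l + 1) = - e l ∧
      ∃ j : ℤ, (⟨v (l + 1), a (l + 1)⟩ : KK) = vec (j • T' (e l))) := by
  rintro ⟨h1, j, h2⟩
  refine hred l hl ⟨h1, ?_, j, ?_⟩
  · exact congrArg KK.a h2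
  · exact congrArg KK.v h2

/-- the entry points of a reduced sequence are `Red` -/
theorem gp_red (v : ℕ → ℤ × ℤ) (a : ℕ → ZMod 4) (e : ℕ → ℤˣ) (m : ℕ) (hred : RedSeq v a e m) (l : ℕ) (hl : l < m) :
    Red (gp v a e (l + 1)) (e l) := by
  induction l with
  | zero =>
    have h := Red.base ⟨v 0, a 0⟩ (e 0)
    simpa [gp] using h
  | succ l ih =>
    refine Red.step (h := gp v a e (l + 1)) ⟨v (l + 1), a (l + 1)⟩ (e (l + 1)) (ih (by omega)) ?_
    exact cut_hk v a e m hred l hl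

/-- A3, cut sets: `F i := {x | (gp v a e (i-1) * of ⟨v (i-1), a (i-1)⟩)⁻¹ * x ∈ Far (e (i-1))}`.
(1) `far_of`, (2) `far_te`, (3) `not_far` (with `gp_red`; `not_far_of` for `i = 1`), (4), (5) `far_nest`, `far_self` (induction from the end for (5)). -/
theorem cut_sets (v : ℕ → ℤ × ℤ) (a : ℕ → ZMod 4) (e : ℕ → ℤˣ) (m : ℕ) (hred : RedSeq v a e m) :
    ∃ F : ℕ → Set GG,
      (∀ i, 1 ≤ i → i ≤ m → ∀ x k, x ∈ F i → x * of k ∈ F i) ∧
      (∀ i, 1 ≤ i → i ≤ m → ∀ x s, x ∉ F i → x * te s ∈ F i →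
        s = e (i - 1) ∧ ∃ j : ℤ, x = gp v a e (i - 1) * of ⟨v (i - 1), a (i - 1)⟩ * of (vec (j • T (e (i - 1))))) ∧
      (∀ i, 1 ≤ i → i ≤ m → (1 : GG) ∉ F i) ∧
      (∀ i, 1 ≤ i → i < m → F (i + 1) ⊆ F i) ∧
      (∀ i, 1 ≤ i → i ≤ m → gp v a e m * of ⟨v m, a m⟩ ∈ F i) := by
  have h4 : ∀ i, 1 ≤ i → i < m → ∀ x,
      (gp v a e (i + 1 - 1) * of ⟨v (i + 1 - 1), a (i + 1 - 1)⟩)⁻¹ * x ∈ Far (e (i + 1 - 1)) →
      (gp v a e (i - 1) * of ⟨v (i - 1), a (i - 1)⟩)⁻¹ * x ∈ Far (e (i - 1)) := by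
    intro i hi him x hx
    obtain ⟨l, rfl⟩ : ∃ l, i = l + 1 := ⟨i - 1, by omega⟩
    simp only [Nat.add_sub_cancel] at hx ⊢
    have h := far_nest (e := e l) (e' := e (l + 1)) ⟨v (l + 1), a (l + 1)⟩ hx
      (cut_hk v a e m hred l him)
    have heq : te (e l) * of ⟨v (l + 1), a (l + 1)⟩ *
        ((gp v a e (l + 1) * of ⟨v (l + 1), a (l + 1)⟩)⁻¹ * x) =
        (gp v a e l * of ⟨v l, a l⟩)⁻¹ * x := by
      show te (e l) * of ⟨v (l + 1), a (l + 1)⟩ *
        (((gp v a e l * of ⟨v l, a l⟩ * te (e l)) * of ⟨v (l + 1), a (l + 1)⟩)⁻¹ * x) = _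
      generalize gp v a e l = p
      generalize (of ⟨v l, a l⟩ : GG) = q
      generalize te (e l) = r
      generalize (of ⟨v (l + 1), a (l + 1)⟩ : GG) = s
      group
    rwa [heq] at h
  refine ⟨fun i => {x | (gp v a e (i - 1) * of ⟨v (i - 1), a (i - 1)⟩)⁻¹ * x ∈ Far (e (i - 1))},
    ?_, ?_, ?_, ?_, ?_⟩
  · intro i _ _ x k hx
    have h := far_of hx k
    rw [mul_assoc] at h
    exact h
  · intro i _ _ x s hx hxs
    have hxs' : ((gp v a e (i - 1) * of ⟨v (i - 1), a (i - 1)⟩)⁻¹ * x) * te s ∈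
        Far (e (i - 1)) := by
      rw [mul_assoc]
      exact hxs
    obtain ⟨h1, j, h2⟩ := far_te s hx hxs'
    refine ⟨h1, j, ?_⟩
    rw [← h2, mul_inv_cancel_left]
  · intro i hi him h1
    have h1' : (gp v a e (i - 1) * of ⟨v (i - 1), a (i - 1)⟩)⁻¹ * 1 ∈ Far (e (i - 1)) := h1
    rw [mul_one] at h1'
    obtain ⟨l, rfl⟩ : ∃ l, i = l + 1 := ⟨i - 1, by omega⟩
    simp only [Nat.add_sub_cancel] at h1'
    rcases Nat.eq_zero_or_pos l with rfl | hl
    · have hg : gp v a e 0 = 1 := rfl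
      rw [hg, one_mul] at h1'
      exact not_far_of _ _ h1'
    · obtain ⟨k, rfl⟩ : ∃ k, l = k + 1 := ⟨l - 1, by omega⟩
      exact not_far ⟨v (k + 1), a (k + 1)⟩ (gp_red v a e m hred k (by omega))
        (cut_hk v a e m hred k (by omega)) h1'
  · intro i hi him x hx
    exact h4 i hi him x hx
  · have h5 : ∀ d i, 1 ≤ i → i + d = m →
        (gp v a e (i - 1) * of ⟨v (i - 1), a (i - 1)⟩)⁻¹ * (gp v a e m * of ⟨v m, a m⟩) ∈
          Far (e (i - 1)) := by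
      intro d
      induction d with
      | zero =>
        intro i hi hid
        obtain ⟨l, rfl⟩ : ∃ l, i = l + 1 := ⟨i - 1, by omega⟩
        obtain rfl : l + 1 = m := by omega
        simp only [Nat.add_sub_cancel]
        have h := far_self (e l) ⟨v (l + 1), a (l + 1)⟩
        have heq : te (e l) * of ⟨v (l + 1), a (l + 1)⟩ =
            (gp v a e l * of ⟨v l, a l⟩)⁻¹ *
              (gp v a e (l + 1) * of ⟨v (l + 1), a (l + 1)⟩) := by
          show _ = (gp v a e l * of ⟨v l, a l⟩)⁻¹ *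
            ((gp v a e l * of ⟨v l, a l⟩ * te (e l)) * of ⟨v (l + 1), a (l + 1)⟩)
          generalize gp v a e l = p
          generalize (of ⟨v l, a l⟩ : GG) = q
          generalize te (e l) = r
          generalize (of ⟨v (l + 1), a (l + 1)⟩ : GG) = s
          group
        rwa [heq] at h
      | succ d ih =>
        intro i hi hid
        exact h4 i hi (by omega) _ (ih (i + 1) (by omega) (by omega))
    intro i hi him
    exact h5 (m - i) i hi (by omega)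

end AutGeo
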