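import Pool.Agent.AutGeo.Defs

set_option autoImplicit false

namespace AutGeo

open HNNExtension HNNExtension.NormalWord

/-- elements with a reduced word that starts (after a head in the exit line group) with `t^e`: far side of the edge from `1` to `te e` -/
def Far (e : ℤˣ) : Set GG :=
  {x | ∃ W : ReducedWord KK (line (2, 2)) (line (3, 0)), W.prod phi = x ∧ W.head ∈ line (T e) ∧
    W.toList.head?.map Prod.fst = some e}

/-- the subgroups of Mathlib's `toSubgroup` -/
theorem toSubgroup_eq (e : ℤˣ) : HNNExtension.toSubgroup (line (2, 2)) (line (3, 0)) e = line (T' e) ∧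
    HNNExtension.toSubgroup (line (2, 2)) (line (3, 0)) (-e) = line (T e) := by
  rcases Int.units_eq_one_or e with rfl | rfl
  · exact ⟨rfl, rfl⟩
  · exact ⟨rfl, rfl⟩

/-- every reduced word of an element of `Far e` looks like that (`ReducedWord.map_fst_eq_and_of_prod_eq`) -/
theorem far_unique {e : ℤˣ} {x : GG} (hx : x ∈ Far e) (W : ReducedWord KK (line (2, 2)) (line (3, 0)))
    (hW : W.prod phi = x) : W.head ∈ line (T e) ∧ W.toList.head?.map Prod.fst = some e := by
  obtain ⟨W0, hW0, hh, hl⟩ := hx
  obtain ⟨h1, h2⟩ := ReducedWord.map_fst_eq_and_of_prod_eq phi (w₁ := W0) (w₂ := W)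
    (hW0.trans hW.symm)
  constructor
  · have h3 := h2 e (by rw [hl]; rfl)
    rw [(toSubgroup_eq e).2] at h3
    have h4 := (line (T e)).mul_mem hh h3
    rwa [mul_inv_cancel_left] at h4
  · rw [← List.head?_map, ← h1, List.head?_map, hl]

/-- every element has a reduced word (e.g. a normal word) -/
theorem exists_reducedWord (x : GG) : ∃ W : ReducedWord KK (line (2, 2)) (line (3, 0)), W.prod phi = x := by
  obtain ⟨d⟩ := TransversalPair.nonempty KK (line (2, 2)) (line (3, 0))
  exact ⟨((NormalWord.equiv phi d) x).toReducedWord, (NormalWord.equiv phi d).left_inv x⟩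

/-- right multiplication by the base group: change the last entry of the list -/
theorem far_of {e : ℤˣ} {x : GG} (hx : x ∈ Far e) (k : KK) : x * of k ∈ Far e := by
  obtain ⟨W, hW, hh, hl⟩ := hx
  obtain ⟨g, l, hc⟩ := W
  subst hW
  simp only at hh hl
  rcases List.eq_nil_or_concat' l with rfl | ⟨L, a, rfl⟩
  · simp at hl
  · obtain ⟨s, b⟩ := a
    refine ⟨⟨g, L ++ [(s, b * k)], ?_⟩, ?_, hh, ?_⟩
    · rw [List.isChain_append] at hc ⊢
      refine ⟨hc.1, List.isChain_singleton _, ?_⟩
      intro y hy z hz
      have hz' : (s, b * k) = z := by simpa using hz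
      subst hz'
      exact hc.2.2 y hy (s, b) (by simp)
    · simp [ReducedWord.prod, mul_assoc]
    · show ((L ++ [(s, b * k)]).head?).map Prod.fst = some e
      cases L with
      | nil => simpa using hl
      | cons c L => simpa using hl

/-- entering `Far e` by a letter `te s`: only at the points of the line. Take a reduced word of `x`; if `x * te s` is reduced as it stands (append `(s, 1)`), then the list of `x` is empty (otherwise `x ∈ Far e` by `far_unique` for `x * te s`), so `x = of head`,
`s = e`, `head ∈ line (T e)`. Otherwise the last letter `(-s, g)`, `g ∈ toSubgroup (-s)`, is cancelled: the new word starts like the old one, if the list of `x` has length at least 2; if it has length 1 the new word has an empty list, so `x * te s ∉ Far e`. -/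
theorem far_te {e : ℤˣ} {x : GG} (s : ℤˣ) (hx : x ∉ Far e) (hxs : x * te s ∈ Far e) :
    s = e ∧ ∃ j : ℤ, x = of (vec (j • T e)) := by
  obtain ⟨W, hW⟩ := exists_reducedWord x
  obtain ⟨g, l, hc⟩ := W
  rcases List.eq_nil_or_concat' l with rfl | ⟨L, a, rfl⟩
  · have h1 := far_unique hxs ⟨g, [(s, 1)], List.isChain_singleton _⟩
      (by rw [← hW]; simp [ReducedWord.prod, te])
    obtain ⟨⟨j, hj⟩, h2⟩ := h1
    simp only [List.head?_cons, Option.map_some, Option.some.injEq] at h2
    simp only at hj
    refine ⟨h2, j, ?_⟩
    rw [← hW, ← hj]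
    simp [ReducedWord.prod]
  · exfalso
    obtain ⟨s', b⟩ := a
    by_cases hcan : b ∈ HNNExtension.toSubgroup (line (2, 2)) (line (3, 0)) s' → s' = s
    · have hc2 : (L ++ [(s', b)] ++ [(s, 1)]).IsChain
          (fun a b : ℤˣ × KK => a.2 ∈ HNNExtension.toSubgroup (line (2, 2)) (line (3, 0)) a.1 →
            a.1 = b.1) := by
        rw [List.isChain_append]
        refine ⟨hc, List.isChain_singleton _, ?_⟩
        intro y hy z hz
        have hz' : ((s, 1) : ℤˣ × KK) = z := by simpa using hz
        have hy' : (s', b) = y := by simpa using hy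
        subst hz' hy'
        exact hcan
      have h1 := far_unique hxs ⟨g, L ++ [(s', b)] ++ [(s, 1)], hc2⟩
        (by rw [← hW]; simp [ReducedWord.prod, te, mul_assoc])
      apply hx
      refine ⟨⟨g, L ++ [(s', b)], hc⟩, hW, h1.1, ?_⟩
      have h2 := h1.2
      show ((L ++ [(s', b)]).head?).map Prod.fst = some e
      cases L with
      | nil => simpa using h2
      | cons c L => simpa using h2
    · push Not at hcan
      obtain ⟨hb, hs⟩ := hcan
      have hs' : s' = -s := by
        rcases Int.units_eq_one_or s with rfl | rfl <;>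
          rcases Int.units_eq_one_or s' with rfl | rfl <;> simp_all
      subst hs'
      -- the last letter is cancelled
      obtain ⟨k, hk⟩ : ∃ k : KK, (HNNExtension.t : GG) ^ ((-s : ℤˣ) : ℤ) * of b *
          (HNNExtension.t : GG) ^ (s : ℤ) = of k := by
        rcases Int.units_eq_one_or s with rfl | rfl
        · refine ⟨((phi.symm ⟨b, hb⟩ : line (2, 2)) : KK), ?_⟩
          have h := HNNExtension.equiv_symm_eq_conj (φ := phi) ⟨b, hb⟩
          rw [show (of : KK →* GG) = HNNExtension.of from rfl, h]
          simp
        · refine ⟨((phi ⟨b, by simpa using hb⟩ : line (3, 0)) : KK), ?_⟩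
          have h := HNNExtension.equiv_eq_conj (φ := phi) ⟨b, by simpa using hb⟩
          rw [show (of : KK →* GG) = HNNExtension.of from rfl, h]
          simp
      have hc' := (List.isChain_append.1 hc).1
      have hx2 : (⟨g, L, hc'⟩ : ReducedWord KK (line (2, 2)) (line (3, 0))).prod phi =
          x * te s * of k⁻¹ := by
        rw [map_inv, eq_mul_inv_iff_mul_eq, ← hk, ← hW]
        simp [ReducedWord.prod, te, mul_assoc]
      have h1 := far_unique (far_of hxs k⁻¹) ⟨g, L, hc'⟩ hx2
      apply hx
      refine ⟨⟨g, L ++ [(-s, b)], hc⟩, hW, h1.1, ?_⟩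
      have h2 := h1.2
      show ((L ++ [(-s, b)]).head?).map Prod.fst = some e
      cases L with
      | nil => simp at h2
      | cons c L => simpa using h2

end AutGeo
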