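import Pool.Agent.AutGeo.G.Far
import Pool.Agent.AutGeo.G.Britton

set_option autoImplicit false

namespace AutGeo

open HNNExtension HNNExtension.NormalWord

private lemma far2_ne {e e' : ℤˣ} (h : e ≠ e') : e' = -e := by
  rcases Int.units_eq_one_or e with rfl | rfl <;>
    rcases Int.units_eq_one_or e' with rfl | rfl <;> simp_all

/-- nesting: `te e * of k * y ∈ Far e` for `y ∈ Far e'` if `te e * of k * te e'` is reduced:
word `⟨1, (e, k * W.head) :: W.toList⟩`;
chain condition: `k * W.head ∈ line (T' e) → e = e'`: if `e' = -e` then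
`W.head ∈ line (T e') = line (T' e)`, so `k ∈ line (T' e)`. -/
theorem far_nest {e e' : ℤˣ} {y : GG} (k : KK) (hy : y ∈ Far e')
    (hk : ¬ (e' = -e ∧ ∃ j : ℤ, k = vec (j • T' e))) : te e * of k * y ∈ Far e := by
  obtain ⟨W, hW, hh, hl⟩ := hy
  refine ⟨⟨1, (e, k * W.head) :: W.toList, ?_⟩, ?_, (line (T e)).one_mem, rfl⟩
  · refine List.isChain_cons.2 ⟨?_, W.chain⟩
    rintro ⟨u, g⟩ hu hmem
    have hu1 : u = e' := by
      have h1 := congrArg (Option.map Prod.fst) hu
      rw [hl] at h1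
      simpa using h1.symm
    subst hu1
    simp only at hmem ⊢
    by_contra hne
    have he := far2_ne hne
    subst he
    rw [(toSubgroup_eq e).1] at hmem
    rw [T_neg] at hh
    have h2 := (line (T' e)).mul_mem hmem ((line (T' e)).inv_mem hh)
    rw [mul_inv_cancel_right] at h2
    exact hk ⟨rfl, h2⟩
  · rw [← hW]
    simp [ReducedWord.prod, te, mul_assoc]

theorem far_self (e : ℤˣ) (k : KK) : te e * of k ∈ Far e := by
  refine ⟨⟨1, [(e, k)], List.isChain_singleton _⟩, ?_, (line (T e)).one_mem, rfl⟩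
  simp [ReducedWord.prod, te]

/-- the base point is not on the far side (`red_word` for `h⁻¹`, head `k⁻¹`, first sign `-e`) -/
theorem not_far {h : GG} {e e' : ℤˣ} (k : KK) (hr : Red h e)
    (hk : ¬ (e' = -e ∧ ∃ j : ℤ, k = vec (j • T' e))) :
    (h * of k)⁻¹ ∉ Far e' := by
  intro hf
  obtain ⟨W, hW, hW1, hW2⟩ := red_word hr
  have h1 := far_unique hf ⟨k⁻¹, W.toList, W.chain⟩ (by
    rw [mul_inv_rev, ← hW]
    simp [ReducedWord.prod, hW1])
  obtain ⟨hh, hl⟩ := h1
  simp only at hh hl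
  rw [hW2] at hl
  have he : e' = -e := (Option.some.inj hl).symm
  subst he
  rw [T_neg] at hh
  have h2 := (line (T' e)).inv_mem hh
  rw [inv_inv] at h2
  exact hk ⟨rfl, h2⟩

theorem not_far_of (k : KK) (e' : ℤˣ) : (of k)⁻¹ ∉ Far e' := by
  intro hf
  have h1 := far_unique hf ⟨k⁻¹, [], List.isChain_nil⟩ (by simp [ReducedWord.prod])
  simp at h1

end AutGeo
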