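import Pool.Agent.AutGeo.ADefs

set_option autoImplicit false

namespace AutGeo

open Finset

private lemma disp_step (v : ℕ → ℤ × ℤ) (a : ℕ → ZMod 4) (e : ℕ → ℤˣ) (X : ℕ → ℤ) (l : ℕ) :
    of (vec (X l • Blin e l)) * of (⟨disp v a e X l, a l⟩ : KK) * te (e l) =
      of (⟨v l, a l⟩ : KK) * te (e l) * of (vec (X (l + 1) • Blin e (l + 1))) := by
  have h1 : vec (X l • Blin e l) * (⟨disp v a e X l, a l⟩ : KK) =
      (⟨v l, a l⟩ : KK) * vec (X (l + 1) • T (e l)) := by
    ext1
    · simp only [KK.mul_v, vec_v, vec_a, rot_zero, disp, Alin, rot_smul]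
      abel
    · simp
  have h2 : Blin e (l + 1) = T' (e l) := by simp [Blin]
  rw [← map_mul, h1, map_mul, mul_assoc, vecT_te, h2, mul_assoc]

/-- displacement identities. With `X 0 = 0`:
`gp (disp X) a e l = gp v a e l * of (vec (X l • T' (e (l-1))))` for `l ≥ 1` -/
theorem gp_disp (v : ℕ → ℤ × ℤ) (a : ℕ → ZMod 4) (e : ℕ → ℤˣ) (X : ℕ → ℤ) (h0 : X 0 = 0) (l : ℕ) :
    gp (disp v a e X) a e l = gp v a e l * of (vec (X l • Blin e l)) := by
  induction l with
  | zero => simp [gp, h0, vec_zero]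
  | succ l ih =>
    rw [gp, gp, ih]
    have h := disp_step v a e X l
    simp only [mul_assoc] at h ⊢
    rw [h]

/-- elements between crossings: `l ≥ j`:
`(gp v a e (j) * of (vec (X j • Blin e j)))⁻¹ * gp v a e (l) * of (vec (X l • Blin e l))`
is the product of the displaced planes `j..l-1` -/
theorem gp_disp_from (v : ℕ → ℤ × ℤ) (a : ℕ → ZMod 4) (e : ℕ → ℤˣ) (X : ℕ → ℤ) (j l : ℕ)
    (hj : 1 ≤ j) (hl : j ≤ l) :
    gp v a e l * of (vec (X l • Blin e l)) = gp v a e j * of (vec (X j • Blin e j)) *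
      gp (fun k => disp v a e X (j + k)) (fun k => a (j + k)) (fun k => e (j + k)) (l - j) := by
  induction l, hl using Nat.le_induction with
  | base => simp [gp]
  | succ l hjl ih =>
    have h1 : l + 1 - j = (l - j) + 1 := by omega
    have h2 : j + (l - j) = l := by omega
    rw [h1, gp, gp, h2]
    have h := disp_step v a e X l
    simp only [mul_assoc] at h ih ⊢
    rw [← h]
    rw [← mul_assoc (gp v a e l), ← mul_assoc (gp v a e l * _)]
    simp only [mul_assoc]
    rw [← mul_assoc (gp v a e l), ih]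
    simp only [mul_assoc]

/-- length of a product of planes -/
theorem len_gp_le (len : GG → ℕ) (h1 : len 1 = 0) (hmul : ∀ g h, len (g * h) ≤ len g + len h) :
    ∃ C : ℕ, ∀ (v : ℕ → ℤ × ℤ) (a : ℕ → ZMod 4) (e : ℕ → ℤˣ) (m : ℕ),
      len (gp v a e m) ≤ ∑ l ∈ range m, len (of (vec (v l))) + m * C := by
  refine ⟨(∑ b : ZMod 4, len (of (⟨0, b⟩ : KK))) + ∑ d : ℤˣ, len (te d), ?_⟩
  intro v a e m
  induction m with
  | zero => simp [gp, h1]
  | succ m ih =>
    have h2 : (⟨v m, a m⟩ : KK) = vec (v m) * ⟨0, a m⟩ := by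
      ext1
      · simp [rot_zero]
      · simp
    have h3 : len (gp v a e (m + 1)) ≤ len (gp v a e m) + (len (of (vec (v m))) +
        len (of (⟨0, a m⟩ : KK))) + len (te (e m)) := by
      rw [gp, h2, map_mul]
      refine (hmul _ _).trans (Nat.add_le_add_right ?_ _)
      exact (hmul _ _).trans (Nat.add_le_add_left (hmul _ _) _)
    have h4 : len (of (⟨0, a m⟩ : KK)) ≤ ∑ b : ZMod 4, len (of (⟨0, b⟩ : KK)) :=
      Finset.single_le_sum (f := fun b : ZMod 4 => len (of (⟨0, b⟩ : KK)))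
        (fun _ _ => Nat.zero_le _) (Finset.mem_univ (a m))
    have h5 : len (te (e m)) ≤ ∑ d : ℤˣ, len (te d) :=
      Finset.single_le_sum (f := fun d : ℤˣ => len (te d))
        (fun _ _ => Nat.zero_le _) (Finset.mem_univ (e m))
    rw [Finset.sum_range_succ, Nat.succ_mul]
    omega

end AutGeo
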