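import Pool.Agent.AutGeo.G.PLen
import Pool.Agent.AutGeo.G.WordLen
import Pool.Agent.AutGeo.ADefs

set_option autoImplicit false

namespace AutGeo

open Finset

/-- `p` of a length function -/
noncomputable def pl (len : GG → ℕ) (v : ℤ × ℤ) : ℝ := (len (of (vec v)) : ℝ)

private lemma abs_conj_le (len : GG → ℕ) (hmul : ∀ g h, len (g * h) ≤ len g + len h)
    (hinv : ∀ g, len g⁻¹ = len g) (c g g' : GG) (h : c * g * c⁻¹ = g') :
    |(len g' : ℝ) - (len g : ℝ)| ≤ 2 * (len c : ℝ) := by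
  have h1 : len g' ≤ len g + 2 * len c := by
    have a1 := hmul (c * g) c⁻¹
    have a2 := hmul c g
    rw [hinv c, h] at a1
    omega
  have h2 : len g ≤ len g' + 2 * len c := by
    have e : c⁻¹ * g' * c = g := by rw [← h]; group
    have a1 := hmul (c⁻¹ * g') c
    have a2 := hmul c⁻¹ g'
    rw [hinv c] at a2
    rw [e] at a1
    omega
  have h1' : (len g' : ℝ) ≤ (len g : ℝ) + 2 * (len c : ℝ) := by exact_mod_cast h1
  have h2' : (len g : ℝ) ≤ (len g' : ℝ) + 2 * (len c : ℝ) := by exact_mod_cast h2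
  rw [abs_le]
  constructor <;> linarith

private lemma P6_ge (v : ℤ × ℤ) : |v.1| + |v.2| ≤ P6 v := by
  unfold P6
  have h1 : 0 ≤ |v.1| := abs_nonneg _
  have h2 : 2 * |v.1| + |v.2| ≤ max (2 * |v.1| + |v.2|) (|v.1| + 2 * |v.2|) := le_max_left _ _
  linarith

private lemma path_cost (S : Finset GG) (C : ℤ)
    (hC : ∀ s ∈ S, ∃ L : List (KK ⊕ ℤˣ), (L.map lv).prod = s ∧ (L.map cost).sum ≤ C)
    (h : ℕ → GG) (h0 : h 0 = 1) (n : ℕ) (hs : ∀ i, i < n → (h i)⁻¹ * h (i + 1) ∈ S) :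
    ∀ i, i ≤ n → ∃ L : List (KK ⊕ ℤˣ), (L.map lv).prod = h i ∧ (L.map cost).sum ≤ C * i := by
  intro i
  induction i with
  | zero =>
    intro _
    exact ⟨[], by simp [h0], by simp⟩
  | succ i ih =>
    intro hi
    obtain ⟨L, hL, hLc⟩ := ih (by omega)
    obtain ⟨L', hL', hLc'⟩ := hC _ (hs i (by omega))
    refine ⟨L ++ L', ?_, ?_⟩
    · rw [List.map_append, List.prod_append, hL, hL']
      group
    · rw [List.map_append, List.sum_append]
      push_cast
      linarith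

/-- A1 and conjugations. `rot`: `of ⟨0,1⟩ * of (vec v) * of ⟨0,1⟩⁻¹ = of (vec (rot 1 v))`; `uw`: `te 1 * of (vec (j • (2,2))) * te (-1) = of (vec (j • (3,0)))`;
`pos`: a path of length `len g` with steps in `S` from `1` to `g = of (vec v)`; write every `s ∈ S` as a product of letters (`exists_letters`), `P6_le_cost`: `P6 v ≤ C * len g`, and `|v.1| + |v.2| ≤ P6 v`. -/
theorem pl_hyp (len : GG → ℕ) (S : Finset GG) (Nst : ℕ) (h1 : len 1 = 0) (hmul : ∀ g h, len (g * h) ≤ len g + len h)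
    (hinv : ∀ g, len g⁻¹ = len g) (hS : ∀ s ∈ S, len s ≤ 1) (hP : Pump len S Nst) : PHyp (pl len) := by
  refine ⟨?_, ?_, ?_, ?_, ?_, ?_⟩
  · simp [pl, vec_zero, h1]
  · intro v
    simp only [pl]
    rw [← vec_inv, map_inv, hinv]
  · intro v w
    simp only [pl]
    rw [← vec_mul, map_mul]
    exact_mod_cast hmul _ _
  · refine ⟨2 * (len (of ⟨0, 1⟩) : ℝ), fun v => ?_⟩
    simp only [pl]
    refine abs_conj_le len hmul hinv (of ⟨0, 1⟩) _ _ ?_
    rw [← map_mul, mk_mul_vec, map_mul, mul_assoc, mul_inv_cancel, mul_one]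
  · refine ⟨2 * (len (te 1) : ℝ), fun j => ?_⟩
    simp only [pl]
    refine abs_conj_le len hmul hinv (te 1) _ _ ?_
    have := vecT_te 1 j
    rw [T_one, T'_one] at this
    rw [← this, mul_assoc, mul_inv_cancel, mul_one]
  · have key : ∃ C : ℤ, 1 ≤ C ∧ ∀ s ∈ S, ∃ L : List (KK ⊕ ℤˣ), (L.map lv).prod = s ∧ (L.map cost).sum ≤ C := by
      classical
      choose L hL using exists_letters
      refine ⟨1 + ∑ s ∈ S, |((L s).map cost).sum|, ?_, ?_⟩
      · have : 0 ≤ ∑ s ∈ S, |((L s).map cost).sum| := Finset.sum_nonneg (fun s _ => abs_nonneg _)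
        linarith
      · intro s hs
        refine ⟨L s, hL s, ?_⟩
        have h2 : |((L s).map cost).sum| ≤ ∑ s ∈ S, |((L s).map cost).sum| :=
          Finset.single_le_sum (f := fun s => |((L s).map cost).sum|) (fun s _ => abs_nonneg _) hs
        have h3 := le_abs_self ((L s).map cost).sum
        linarith
    obtain ⟨C, hC1, hC⟩ := key
    have hCpos : (0 : ℝ) < (C : ℝ) := by exact_mod_cast (by linarith : (0 : ℤ) < C)
    refine ⟨1 / (C : ℝ), by positivity, fun v => ?_⟩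
    obtain ⟨h, st, h0, hlen, hstep, -⟩ := hP.path (of (vec v))
    obtain ⟨L, hL, hLc⟩ := path_cost S C hC h h0 _ hstep (len (of (vec v))) le_rfl
    rw [hlen] at hL
    have h4 := P6_le_cost L (vec v) hL
    have h5 := P6_ge v
    rw [vec_v] at h4
    have h6 : |v.1| + |v.2| ≤ C * (len (of (vec v)) : ℤ) := by linarith
    have h7 : |(v.1 : ℝ)| + |(v.2 : ℝ)| ≤ (C : ℝ) * (len (of (vec v)) : ℝ) := by exact_mod_cast h6
    simp only [pl]
    rw [one_div, inv_mul_le_iff₀ hCpos]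
    exact h7

end AutGeo
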