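import Pool.Agent.AutGeo.G.Crossing
import Pool.Agent.AutGeo.G.PlHyp
import Pool.Agent.AutGeo.G.GpDisp

set_option autoImplicit false

namespace AutGeo

open Finset

/-- a path with steps in `S` of length `≤ t - s` -/
private theorem gpp_path_len (len : GG → ℕ) (S : Finset GG) (h1 : len 1 = 0)
    (hmul : ∀ g h, len (g * h) ≤ len g + len h) (hS : ∀ s ∈ S, len s ≤ 1)
    (h : ℕ → GG) (L : ℕ) (hst : ∀ i, i < L → (h i)⁻¹ * h (i + 1) ∈ S) (s t : ℕ)
    (hs : s ≤ t) (ht : t ≤ L) : len ((h s)⁻¹ * h t) + s ≤ t := by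
  induction t, hs using Nat.le_induction with
  | base => simp [h1]
  | succ t hst' ih =>
    have e1 : (h s)⁻¹ * h (t + 1) = ((h s)⁻¹ * h t) * ((h t)⁻¹ * h (t + 1)) := by group
    have e2 := hmul ((h s)⁻¹ * h t) ((h t)⁻¹ * h (t + 1))
    have e3 := hS _ (hst t (by omega))
    have e4 := ih (by omega)
    rw [e1]
    omega

/-- `of ⟨v, a⟩` splits -/
private theorem gpp_split (v : ℤ × ℤ) (a : ZMod 4) :
    (⟨v, a⟩ : KK) = vec v * ⟨0, a⟩ := by
  ext1
  · simp [rot_zero]
  · simp

/-- the point before the crossing, in terms of the displacement -/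
private theorem gpp_seg (v : ℕ → ℤ × ℤ) (a : ℕ → ZMod 4) (e : ℕ → ℤˣ) (Y : ℕ → ℤ) (l : ℕ) :
    gp v a e l * of ⟨v l, a l⟩ * of (vec (Y (l + 1) • T (e l))) =
      gp v a e l * of (vec (Y l • Blin e l)) * of (vec (disp v a e Y l)) * of ⟨0, a l⟩ := by
  have e1 : (⟨v l, a l⟩ : KK) * vec (Y (l + 1) • T (e l)) =
      vec (Y l • Blin e l) * vec (disp v a e Y l) * ⟨0, a l⟩ := by
    rw [mk_mul_vec, vec_mul, gpp_split (v l) (a l), ← mul_assoc, vec_mul, rot_smul]
    congr 2
    simp only [disp, Alin]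
    abel
  rw [mul_assoc, ← map_mul, e1, map_mul, map_mul]
  simp only [mul_assoc]

/-- crossing -/
private theorem gpp_cross (v : ℕ → ℤ × ℤ) (a : ℕ → ZMod 4) (e : ℕ → ℤˣ) (y : ℤ) (l : ℕ) :
    gp v a e l * of ⟨v l, a l⟩ * of (vec (y • T (e l))) * te (e l) =
      gp v a e (l + 1) * of (vec (y • Blin e (l + 1))) := by
  have e1 : Blin e (l + 1) = T' (e l) := by simp [Blin]
  have e2 : gp v a e (l + 1) = gp v a e l * of ⟨v l, a l⟩ * te (e l) := rfl
  rw [e1, e2, mul_assoc _ _ (te (e l)), vecT_te]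
  simp only [mul_assoc]

/-- A4. Proof: `crossing` for the geodesic path of `g = gp v a e m * of ⟨v m, a m⟩`. `Y 0 = Y (m+1) = 0`, `t 0 = 0`, `t (m+1) = len g`. Colour of `i` := (state at `t i`, `γ i ∈ E`, `e (i-1)`, whether `0 ≤ Y i`),
a finite type not depending on `m`. Segments: for `0 ≤ l ≤ m`: `(h (t l))⁻¹ h (t (l+1)) = γ * te * of (vec (disp v a e Y l)) * of ⟨0, a l⟩ * γ'⁻¹`, so `p (disp v a e Y l) ≤ (t (l+1) - t l) + C₁` (`len` of a product of `k` elements of `S` is `≤ k`).
(Q0): sum, and `len g ≤ ∑ p (v l) + C`. (Q1): `pump`: `len (h (t i) * (h (t j))⁻¹ * g) = t i + (len g - t j)`, left side is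
`gp (disp X) ... ` by `gp_disp`: `h (t i) (h (t j))⁻¹ g = G_i T^(Y i - Y j) G_j⁻¹ g = (G_i T^(X i)) (G_j T^(X' j))⁻¹ g`, a product of the `of (vec (disp v a e X l))`, `l < i`, the `of (vec (disp v a e X' l))`, `l ≥ j`, and
at most `2m+2` elements `of ⟨0, a l⟩`, `te (e l)`. -/
theorem pl_propQ (len : GG → ℕ) (S : Finset GG) (Nst : ℕ) (h1 : len 1 = 0) (hmul : ∀ g h, len (g * h) ≤ len g + len h)
    (hinv : ∀ g, len g⁻¹ = len g) (hS : ∀ s ∈ S, len s ≤ 1) (hP : Pump len S Nst) : PropQ (pl len) := by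
  classical
  obtain ⟨E, hE⟩ := crossing S
  obtain ⟨CG, hCG⟩ := len_gp_le len h1 hmul
  obtain ⟨Ce, hCe⟩ : ∃ Ce : ℕ, ∀ γ ∈ E, len γ ≤ Ce :=
    ⟨E.sup len, fun γ hγ => Finset.le_sup (f := len) hγ⟩
  obtain ⟨Ct, hCt⟩ : ∃ Ct : ℕ, ∀ ε : ℤˣ, len (te ε) ≤ Ct := by
    refine ⟨len (te 1) + len (te (-1)), fun ε => ?_⟩
    rcases Int.units_eq_one_or ε with rfl | rfl <;> omega
  obtain ⟨Ca, hCa⟩ : ∃ Ca : ℕ, ∀ b : ZMod 4, len (of ⟨0, b⟩) ≤ Ca :=
    ⟨(Finset.univ : Finset (ZMod 4)).sup (fun b => len (of ⟨0, b⟩)),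
      fun b => Finset.le_sup (f := fun b : ZMod 4 => len (of ⟨0, b⟩)) (Finset.mem_univ b)⟩
  set C1 : ℕ := Ct + 2 * Ce + Ca with hC1
  refine ⟨Fintype.card (Option (Fin Nst × {x // x ∈ E} × ℤˣ × Bool)), fun m hm => ?_⟩
  refine ⟨(2 * m * CG + Ca + (2 * m + 2) * C1 : ℕ), fun v a e hred => ?_⟩
  set g : GG := gp v a e m * of ⟨v m, a m⟩ with hg
  obtain ⟨h, st, hh0, hhL, hstep, hpump⟩ := hP.path g
  obtain ⟨t0, Y0, γ0, hcr, hmono⟩ := hE h (len g) hh0 hstep v a e m hred hhL
  -- extensions
  set Y : ℕ → ℤ := fun i => if 1 ≤ i ∧ i ≤ m then Y0 i else 0 with hY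
  set t : ℕ → ℕ := fun i => if i = 0 then 0 else if i ≤ m then t0 i else len g with ht
  set γ : ℕ → GG := fun i => if 1 ≤ i ∧ i ≤ m then γ0 i else 1 with hγ
  have hYz : Y 0 = 0 := by simp [hY]
  have hYm : Y (m + 1) = 0 := by simp [hY]
  have htz : t 0 = 0 := by simp [ht]
  have htm : t (m + 1) = len g := by simp [ht]
  have hγlen : ∀ i, len (γ i) ≤ Ce := by
    intro i
    by_cases hi : 1 ≤ i ∧ i ≤ m
    · simp only [hγ, if_pos hi]
      exact hCe _ (hcr i hi.1 hi.2).1
    · simp only [hγ, if_neg hi, h1]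
      exact Nat.zero_le _
  have htle : ∀ i, i ≤ m + 1 → t i ≤ len g := by
    intro i hi
    simp only [ht]
    split_ifs with h2 h3
    · exact Nat.zero_le _
    · exact (hcr i (by omega) h3).2.1
    · exact le_rfl
  have htmono : ∀ i, i ≤ m → t i ≤ t (i + 1) := by
    intro i hi
    by_cases h2 : i = 0
    · rw [h2, htz]; exact Nat.zero_le _
    · by_cases h3 : i = m
      · rw [h3, htm, ← h3]
        exact htle i (by omega)
      · simp only [ht, if_neg h2, if_pos hi, if_neg (Nat.succ_ne_zero i), if_pos (show i + 1 ≤ m by omega)]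
        exact hmono i (by omega) (by omega)
  -- points before crossings
  have hPt : ∀ l, l ≤ m → h (t (l + 1)) =
      gp v a e l * of ⟨v l, a l⟩ * of (vec (Y (l + 1) • T (e l))) * (γ (l + 1))⁻¹ := by
    intro l hl
    by_cases h3 : l = m
    · subst h3
      rw [htm, hhL, hYm]
      simp only [hγ]
      rw [if_neg (by omega)]
      simp [vec_zero, hg]
    · have h4 := (hcr (l + 1) (by omega) (by omega)).2.2
      simp only [Nat.add_sub_cancel] at h4
      have h5 : t (l + 1) = t0 (l + 1) := by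
        simp only [ht, if_neg (Nat.succ_ne_zero l), if_pos (show l + 1 ≤ m by omega)]
      have h6 : Y (l + 1) = Y0 (l + 1) := by
        simp only [hY]; rw [if_pos (by omega)]
      have h7 : γ (l + 1) = γ0 (l + 1) := by
        simp only [hγ]; rw [if_pos (by omega)]
      rw [h5, h6, h7]
      exact h4
  -- points after crossings
  have hQt : ∀ l, l ≤ m → ∃ x : GG, len x ≤ Ce + Ct ∧
      h (t l) * x = gp v a e l * of (vec (Y l • Blin e l)) := by
    intro l hl
    rcases l with _ | l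
    · refine ⟨1, by rw [h1]; exact Nat.zero_le _, ?_⟩
      rw [htz, hh0, hYz]
      simp [gp, vec_zero]
    · refine ⟨γ (l + 1) * te (e l), ?_, ?_⟩
      · have := hmul (γ (l + 1)) (te (e l))
        have h8 := hγlen (l + 1)
        have h9 := hCt (e l)
        omega
      · rw [hPt l (by omega), ← gpp_cross]
        group
  have hseg : ∀ l, l ≤ m → len (of (vec (disp v a e Y l))) + t l ≤ t (l + 1) + C1 := by
    intro l hl
    obtain ⟨x, hx1, hx2⟩ := hQt l hl
    have e1 : of (vec (disp v a e Y l)) =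
        x⁻¹ * ((h (t l))⁻¹ * h (t (l + 1))) * γ (l + 1) * (of ⟨0, a l⟩)⁻¹ := by
      rw [hPt l hl, gpp_seg, ← hx2]
      group
    have e2 := gpp_path_len len S h1 hmul hS h (len g) hstep (t l) (t (l + 1)) (htmono l hl)
      (htle (l + 1) (by omega))
    have e3 := hmul (x⁻¹ * ((h (t l))⁻¹ * h (t (l + 1))) * γ (l + 1)) (of ⟨0, a l⟩)⁻¹
    have e4 := hmul (x⁻¹ * ((h (t l))⁻¹ * h (t (l + 1)))) (γ (l + 1))
    have e5 := hmul x⁻¹ ((h (t l))⁻¹ * h (t (l + 1)))
    rw [hinv] at e3 e5
    have e6 := hCa (a l)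
    have e7 := hγlen (l + 1)
    rw [e1]
    omega
  have hsegR : ∀ l, l ≤ m → pl len (disp v a e Y l) ≤ ((t (l + 1) : ℝ) - t l) + C1 := by
    intro l hl
    have e1 : ((len (of (vec (disp v a e Y l))) + t l : ℕ) : ℝ) ≤ ((t (l + 1) + C1 : ℕ) : ℝ) := by
      exact_mod_cast hseg l hl
    push_cast at e1
    simp only [pl]
    linarith
  have hsum : ∀ n, n ≤ m + 1 → ∑ l ∈ range n, pl len (disp v a e Y l) ≤ (t n : ℝ) + n * C1 := by
    intro n hn
    have e1 : ∑ l ∈ range n, pl len (disp v a e Y l) ≤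
        ∑ l ∈ range n, (((t (l + 1) : ℝ) - t l) + C1) := by
      apply Finset.sum_le_sum
      intro l hl
      exact hsegR l (by have := Finset.mem_range.1 hl; omega)
    rw [Finset.sum_add_distrib, Finset.sum_range_sub (fun l => (t l : ℝ))] at e1
    simp only [htz, Finset.sum_const, Finset.card_range, nsmul_eq_mul] at e1
    push_cast at e1
    linarith
  have hsum2 : ∀ j, j ≤ m + 1 → ∑ l ∈ Ico j (m + 1), pl len (disp v a e Y l) ≤
      (len g : ℝ) - t j + (m + 1 - j : ℝ) * C1 := by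
    intro j hj
    have e1 : ∑ l ∈ Ico j (m + 1), pl len (disp v a e Y l) ≤
        ∑ l ∈ Ico j (m + 1), (((t (l + 1) : ℝ) - t l) + C1) := by
      apply Finset.sum_le_sum
      intro l hl
      exact hsegR l (by have := Finset.mem_Ico.1 hl; omega)
    rw [Finset.sum_add_distrib, Finset.sum_Ico_eq_sub (fun l => ((t (l + 1) : ℝ) - t l)) hj,
      Finset.sum_range_sub (fun l => (t l : ℝ)),
      Finset.sum_range_sub (fun l => (t l : ℝ))] at e1
    simp only [htz, htm, Finset.sum_const, Nat.card_Ico, nsmul_eq_mul] at e1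
    rw [Nat.cast_sub hj] at e1
    push_cast at e1
    linarith
  -- the length of `g`
  have hleng : (len g : ℝ) ≤ ∑ l ∈ range (m + 1), pl len (v l) + m * CG + Ca := by
    have e1 := hCG v a e m
    have e2 := hmul (gp v a e m) (of ⟨v m, a m⟩)
    have e3 : of ⟨v m, a m⟩ = of (vec (v m)) * of ⟨0, a m⟩ := by
      rw [← map_mul, ← gpp_split]
    have e4 := hmul (of (vec (v m))) (of ⟨0, a m⟩)
    rw [← e3] at e4
    have e5 := hCa (a m)
    rw [← hg] at e2
    have e6 : len g ≤ ∑ l ∈ range (m + 1), len (of (vec (v l))) + m * CG + Ca := by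
      rw [Finset.sum_range_succ]
      omega
    have e7 : (len g : ℝ) ≤ ((∑ l ∈ range (m + 1), len (of (vec (v l))) + m * CG + Ca : ℕ) : ℝ) := by
      exact_mod_cast e6
    push_cast at e7
    simpa [pl] using e7
  -- colours
  obtain ⟨colK, hcolK⟩ : ∃ colK : ℕ → Option (Fin Nst × {x // x ∈ E} × ℤˣ × Bool),
      ∀ (i : ℕ) (hi : 1 ≤ i ∧ i ≤ m), colK i =
        some (st (t i), ⟨γ0 i, (hcr i hi.1 hi.2).1⟩, e (i - 1), decide (0 ≤ Y i)) :=
    ⟨fun i => if hi : 1 ≤ i ∧ i ≤ m then
      some (st (t i), ⟨γ0 i, (hcr i hi.1 hi.2).1⟩, e (i - 1), decide (0 ≤ Y i)) else none,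
      fun i hi => dif_pos hi⟩
  have hC0 : (0 : ℝ) ≤ C1 := Nat.cast_nonneg _
  have hCG0 : (0 : ℝ) ≤ CG := Nat.cast_nonneg _
  have hCa0 : (0 : ℝ) ≤ Ca := Nat.cast_nonneg _
  have hm0 : (0 : ℝ) ≤ m := Nat.cast_nonneg _
  refine ⟨Y, fun i => Fintype.equivFin _ (colK i), hYz, hYm, ?_, ?_⟩
  · have e1 := hsum (m + 1) le_rfl
    rw [htm] at e1
    push_cast at e1 ⊢
    nlinarith [mul_nonneg hm0 hCG0, mul_nonneg hm0 hC0]
  · intro i j hi1 him hj1 hjm hcol
    have hcol' : colK i = colK j := (Fintype.equivFin _).injective hcol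
    rw [hcolK i ⟨hi1, him⟩, hcolK j ⟨hj1, hjm⟩] at hcol'
    simp only [Option.some.injEq, Prod.mk.injEq, Subtype.mk.injEq] at hcol'
    obtain ⟨c1, c2, c3, c4⟩ := hcol'
    refine ⟨c3, ?_, ?_⟩
    · by_cases h5 : 0 ≤ Y i
      · have h6 : 0 ≤ Y j := by
          rw [decide_eq_decide] at c4
          exact c4.1 h5
        exact mul_nonneg h5 h6
      · have h6 : ¬ 0 ≤ Y j := by
          rw [decide_eq_decide] at c4
          exact fun h7 => h5 (c4.2 h7)
        exact mul_nonneg_of_nonpos_of_nonpos (by omega) (by omega)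
    · intro X X' hX hX' hXX
      have hγi : γ i = γ0 i := by simp only [hγ]; rw [if_pos ⟨hi1, him⟩]
      have hγj : γ j = γ0 j := by simp only [hγ]; rw [if_pos ⟨hj1, hjm⟩]
      have hp := hpump (t i) (htle i (by omega)) (t j) (htle j (by omega)) c1
      -- the element
      have key : h (t i) * (h (t j))⁻¹ * g =
          gp (disp v a e X) a e i *
            gp (fun k => disp v a e X' (j + k)) (fun k => a (j + k)) (fun k => e (j + k)) (m - j) *
            of (vec (disp v a e X' m)) * of ⟨0, a m⟩ := by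
        have k1 : ∀ l, 1 ≤ l → l ≤ m → h (t l) * γ l * te (e (l - 1)) =
            gp v a e l * of (vec (Y l • Blin e l)) := by
          intro l hl1 hlm
          obtain ⟨l', rfl⟩ : ∃ l', l = l' + 1 := ⟨l - 1, by omega⟩
          rw [hPt l' (by omega), ← gpp_cross]
          simp only [Nat.add_sub_cancel]
          group
        have ki := k1 i hi1 him
        have kj := k1 j hj1 hjm
        rw [hγi] at ki
        rw [hγj, ← c2, ← c3] at kj
        have hB : Blin e i = Blin e j := by simp only [Blin, c3]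
        have k2 : h (t i) * (h (t j))⁻¹ =
            gp v a e i * of (vec (Y i • Blin e i)) * (gp v a e j * of (vec (Y j • Blin e j)))⁻¹ := by
          rw [← ki, ← kj]
          group
        have k3 : of (vec (Y i • Blin e i)) * (of (vec (Y j • Blin e j)))⁻¹ =
            of (vec (X i • Blin e i)) * (of (vec (X' j • Blin e j)))⁻¹ := by
          rw [← map_inv, ← map_inv, ← map_mul, ← map_mul, vec_inv, vec_inv, vec_mul, vec_mul, hB,
            ← neg_smul, ← neg_smul, ← add_smul, ← add_smul]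
          congr 3
          omega
        have k4 : h (t i) * (h (t j))⁻¹ =
            gp v a e i * of (vec (X i • Blin e i)) * (gp v a e j * of (vec (X' j • Blin e j)))⁻¹ := by
          rw [k2, mul_inv_rev, mul_inv_rev]
          calc gp v a e i * of (vec (Y i • Blin e i)) * ((of (vec (Y j • Blin e j)))⁻¹ * (gp v a e j)⁻¹)
              = gp v a e i * (of (vec (Y i • Blin e i)) * (of (vec (Y j • Blin e j)))⁻¹) *
                  (gp v a e j)⁻¹ := by simp only [mul_assoc]
            _ = _ := by rw [k3]; simp only [mul_assoc]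
        have k5 := gp_disp_from v a e X' j m hj1 hjm
        have k6 : g = gp v a e m * of (vec (X' m • Blin e m)) * of (vec (disp v a e X' m)) *
            of ⟨0, a m⟩ := by
          rw [hg, gpp_split (v m) (a m), map_mul]
          have k7 : vec (v m) = vec (X' m • Blin e m) * vec (disp v a e X' m) := by
            rw [vec_mul]
            congr 1
            simp only [disp, hX', zero_smul, add_zero]
            abel
          rw [k7, map_mul]
          simp only [mul_assoc]
        rw [k4, k6, k5, ← gp_disp v a e X hX i]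
        group
      have l1 := hCG (disp v a e X) a e i
      have l2 := hCG (fun k => disp v a e X' (j + k)) (fun k => a (j + k)) (fun k => e (j + k)) (m - j)
      have l3 : (t i + (len g - t j) : ℕ) ≤ ∑ l ∈ range i, len (of (vec (disp v a e X l))) + i * CG +
          (∑ l ∈ range (m - j), len (of (vec (disp v a e X' (j + l)))) + (m - j) * CG) +
          len (of (vec (disp v a e X' m))) + Ca := by
        rw [← hp, key]
        have m1 := hmul (gp (disp v a e X) a e i *
            gp (fun k => disp v a e X' (j + k)) (fun k => a (j + k)) (fun k => e (j + k)) (m - j) *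
            of (vec (disp v a e X' m))) (of ⟨0, a m⟩)
        have m2 := hmul (gp (disp v a e X) a e i *
            gp (fun k => disp v a e X' (j + k)) (fun k => a (j + k)) (fun k => e (j + k)) (m - j))
            (of (vec (disp v a e X' m)))
        have m3 := hmul (gp (disp v a e X) a e i)
            (gp (fun k => disp v a e X' (j + k)) (fun k => a (j + k)) (fun k => e (j + k)) (m - j))
        have m4 := hCa (a m)
        omega
      have l4 : ∑ l ∈ Ico j (m + 1), len (of (vec (disp v a e X' l))) =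
          ∑ l ∈ range (m - j), len (of (vec (disp v a e X' (j + l)))) +
            len (of (vec (disp v a e X' m))) := by
        rw [Finset.sum_Ico_eq_sum_range, show m + 1 - j = (m - j) + 1 by omega,
          Finset.sum_range_succ, show j + (m - j) = m by omega]
      have htj : t j ≤ len g := htle j (by omega)
      have l5 : (t i : ℝ) + ((len g : ℝ) - t j) ≤ ∑ l ∈ range i, pl len (disp v a e X l) +
          ∑ l ∈ Ico j (m + 1), pl len (disp v a e X' l) + 2 * m * CG + Ca := by
        have n1 : ((t i + (len g - t j) : ℕ) : ℝ) ≤ ((∑ l ∈ range i, len (of (vec (disp v a e X l))) +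
            ∑ l ∈ Ico j (m + 1), len (of (vec (disp v a e X' l))) + (i + (m - j)) * CG + Ca : ℕ) : ℝ) := by
          refine Nat.cast_le.2 ?_
          rw [l4]
          refine l3.trans (le_of_eq ?_)
          ring
        have n2 : (((i + (m - j)) * CG : ℕ) : ℝ) ≤ 2 * m * CG := by
          have n3 : (i + (m - j)) * CG ≤ (2 * m) * CG := Nat.mul_le_mul_right _ (by omega)
          calc (((i + (m - j)) * CG : ℕ) : ℝ) ≤ ((2 * m * CG : ℕ) : ℝ) := Nat.cast_le.2 n3
            _ = 2 * m * CG := by push_cast; ring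
        rw [Nat.cast_add, Nat.cast_sub htj, Nat.cast_add, Nat.cast_add, Nat.cast_add,
          Nat.cast_sum, Nat.cast_sum] at n1
        simp only [pl]
        linarith
      have s1 := hsum i (by omega)
      have s2 := hsum2 j (by omega)
      have hi0 : (i : ℝ) * C1 ≤ m * C1 := mul_le_mul_of_nonneg_right (by exact_mod_cast him) hC0
      have hj0 : ((m : ℝ) + 1 - j) * C1 ≤ (m + 1) * C1 := by
        refine mul_le_mul_of_nonneg_right ?_ hC0
        have : (0 : ℝ) ≤ j := Nat.cast_nonneg _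
        linarith
      push_cast
      nlinarith
end AutGeo
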