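import Pool.Agent.AutGeo.G.WordLen

set_option autoImplicit false

namespace AutGeo

variable {G : Type} [Group G]

/-- a DFA for the geodesic words gives `Pump` (`h i` = value of the prefix of length `i` of a geodesic word `w`, `st i` = state after it;
if `st i = st j` the word `w.take i ++ w.drop j` is accepted, so geodesic) -/
theorem pump_of_dfa [DecidableEq G] (X : Finset G) (hX : Subgroup.closure (X : Set G) = ⊤) (σ : Type) [Fintype σ]
    (M : DFA ({x // x ∈ X} × Bool) σ)
    (hM : ∀ w : List ({x // x ∈ X} × Bool), M.eval w ∈ M.accept ↔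
      ∀ v : List ({x // x ∈ X} × Bool), wval X v = wval X w → w.length ≤ v.length) :
    Pump (wlen X) (symm X) (Fintype.card σ) := by
  refine ⟨fun g => ?_⟩
  obtain ⟨w, hw, hw'⟩ := exists_word X hX g
  have hacc : M.eval w ∈ M.accept := by
    rw [hM]
    intro v hv
    have h1 := wlen_le X v
    rw [hv, hw', ← hw] at h1
    exact h1
  refine ⟨fun i => wval X (w.take i), fun i => Fintype.equivFin σ (M.eval (w.take i)), ?_, ?_, ?_, ?_⟩
  · show wval X (w.take 0) = 1
    rw [List.take_zero, wval_nil]
  · show wval X (w.take (wlen X g)) = g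
    rw [← hw, List.take_length, hw']
  · intro i hi
    rw [← hw] at hi
    show (wval X (w.take i))⁻¹ * wval X (w.take (i + 1)) ∈ symm X
    have e : w.take (i + 1) = w.take i ++ [w[i]] := by
      rw [List.take_add_one, List.getElem?_eq_getElem hi]
      rfl
    rw [e, wval_append, inv_mul_cancel_left]
    have hx : wval X [w[i]] = if (w[i]).2 = true then (w[i]).1.1 else (w[i]).1.1⁻¹ := by
      simp [wval]
    rw [hx]
    unfold symm
    rw [Finset.mem_union, Finset.mem_image]
    by_cases hb : (w[i]).2 = true
    · rw [if_pos hb]
      exact Or.inl (w[i]).1.2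
    · rw [if_neg hb]
      exact Or.inr ⟨(w[i]).1.1, (w[i]).1.2, rfl⟩
  · intro i hi j hj hij
    have hst : M.eval (w.take i) = M.eval (w.take j) := (Fintype.equivFin σ).injective hij
    rw [← hw] at hi hj
    have hev : M.eval (w.take i ++ w.drop j) = M.eval w := by
      have e1 : M.eval (w.take i ++ w.drop j) = M.evalFrom (M.eval (w.take i)) (w.drop j) := by
        unfold DFA.eval
        rw [DFA.evalFrom_of_append]
      have e2 : M.eval (w.take j ++ w.drop j) = M.evalFrom (M.eval (w.take j)) (w.drop j) := by
        unfold DFA.eval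
        rw [DFA.evalFrom_of_append]
      rw [e1, hst, ← e2, List.take_append_drop]
    have hgeo : ∀ v : List ({x // x ∈ X} × Bool), wval X v = wval X (w.take i ++ w.drop j) →
        (w.take i ++ w.drop j).length ≤ v.length := by
      rw [← hM, hev]
      exact hacc
    have hlen : (w.take i ++ w.drop j).length = i + (wlen X g - j) := by
      rw [List.length_append, List.length_take, List.length_drop, min_eq_left hi, hw]
    have hval : wval X (w.take i ++ w.drop j) = wval X (w.take i) * (wval X (w.take j))⁻¹ * g := by
      have e3 : wval X (w.take j) * wval X (w.drop j) = g := by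
        rw [← wval_append, List.take_append_drop, hw']
      rw [wval_append, mul_assoc, ← e3, inv_mul_cancel_left]
    show wlen X (wval X (w.take i) * (wval X (w.take j))⁻¹ * g) = i + (wlen X g - j)
    rw [← hval, ← hlen]
    refine le_antisymm (wlen_le X _) ?_
    obtain ⟨v, hv, hv'⟩ := exists_word X hX (wval X (w.take i ++ w.drop j))
    rw [← hv]
    exact hgeo v hv'

end AutGeo
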